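import Pool.Agent.helper96.S5.SpecV

/-!
# MP_0b485e_lc, row JFN: sets in the class `Jm` meet only finitely many blocks outside the simple set
-/

set_option autoImplicit false

namespace S5

open PF

noncomputable section

open Classical

theorem JFN_row : JFN_stmt := by
  intro X p hX hp R hR
  obtain ⟨R', R1, -, -, h1, h2, -⟩ := (jm_iff hp R).1 hR
  have hW : REPred fun k : ℕ => k ∈ {k : ℕ | ∃ z, Nat.pair k z ∈ R1.1} := by
    refine re_ex (p := fun (k : ℕ) (z : ℕ) => Nat.pair k z ∈ R1.1) ?_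
    exact re_comp (f := fun x : ℕ × ℕ => Nat.pair x.1 x.2)
      (Primrec₂.natPair.to_comp) R1.2
  have hfin : {k : ℕ | (∃ z, Nat.pair k z ∈ R1.1) ∧ k ∈ X.N}.Finite := by
    refine (h1.image fun x => x.unpair.1).subset ?_
    rintro k ⟨⟨z, hz⟩, hk⟩
    refine ⟨Nat.pair k z, ⟨hz, ?_⟩, ?_⟩
    · show (Nat.pair k z).unpair.1 ∈ X.N
      rw [Nat.unpair_pair]
      exact hk
    · show (Nat.pair k z).unpair.1 = k
      rw [Nat.unpair_pair]
  have hWfin : {k : ℕ | ∃ z, Nat.pair k z ∈ R1.1}.Finite := by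
    by_contra hinf
    have hinf2 : ({k : ℕ | ∃ z, Nat.pair k z ∈ R1.1} \
        {k : ℕ | (∃ z, Nat.pair k z ∈ R1.1) ∧ k ∈ X.N}).Infinite :=
      Set.Infinite.sdiff hinf hfin
    obtain ⟨z, hz, hzN⟩ := hX.ns _ (re_fin_diff hW hfin) hinf2
    exact hz.2 ⟨hz.1, hzN⟩
  obtain ⟨B1, hB1⟩ := hWfin.bddAbove
  obtain ⟨B2, hB2⟩ := blocks_finite h2
  refine ⟨max (B1 + 1) B2, fun k hk hkN z hz => ?_⟩
  have hkL : Nat.pair k z ∉ X.sL := by
    intro h
    have h' : (Nat.pair k z).unpair.1 ∈ X.N := h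
    rw [Nat.unpair_pair] at h'
    exact hkN h'
  by_cases hz1 : Nat.pair k z ∈ R1.1
  · have : k ≤ B1 := hB1 ⟨z, hz1⟩
    omega
  · exact hB2 k (by omega) z ⟨hz, fun h => h.elim hz1 hkL⟩

end

end S5
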