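import Pool.Agent.helper96.S5.SpecV

/-!
# MP_0b485e_lc, row KDD
-/

set_option autoImplicit false

namespace S5

open PF

noncomputable section

open Classical

/-- every number is in at most one piece -/
theorem KDD_uniq (hDIS : DIS_stmt) (X : Cx) (hX : X.Ok) (k j k' j' x : ℕ) (h : x ∈ X.bk k j)
    (h' : x ∈ X.bk k' j') : k = k' ∧ j = j' := by
  obtain ⟨t, hx, s, hs⟩ := h
  obtain ⟨t', hx', s', hs'⟩ := h'
  have h1 : Nat.pair k (X.f t) = Nat.pair k' (X.f t') := hx.symm.trans hx'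
  obtain ⟨hk, hf⟩ := Nat.pair_eq_pair.1 h1
  have ht := hX.fi hf
  subst hk
  subst ht
  exact ⟨rfl, ((hDIS X.B k).1 j j' t s s' hs hs').2⟩

theorem KDD_row (hKSB : KSB_stmt) (hRSF : RSF_stmt) (hNRT : NRT_stmt) (hCAL : CAL_stmt) (hDIS : DIS_stmt) :
    KDD_stmt := by
  intro X p hX hp k c w hwc ⟨n0, hw⟩
  obtain ⟨n1, hn1⟩ := hCAL X hX k
  obtain ⟨M, hM⟩ := (hRSF X hX k (max n0 n1) c).bddAbove
  refine hKSB X p hX hp w k (fun x hx => (hwc x hx).imp fun j hj => hj.1) ⟨M + 1, fun j hj => ?_⟩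
  by_cases hc : (pcc j).2.2 = c
  · by_cases hRS : X.B.RS k (pcc j).1 (pcc j).2.1
    · have hlen : max n0 n1 ≤ (pcc j).1.length := by
        by_contra hlt
        have := hM (show j ∈ {j | (pcc j).1.length < max n0 n1 ∧ (pcc j).2.2 = c ∧
          X.B.RS k (pcc j).1 (pcc j).2.1} from ⟨not_le.1 hlt, hc, hRS⟩)
        omega
      by_cases hal : alT X.m (X.ty k) (pcc j).2.1 c
      · exact hw j (le_trans (le_max_left _ _) hlen) hc hal hRS
      · have he : X.bk k j = ∅ := by
          ext x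
          refine ⟨fun hx => ?_, fun hx => absurd hx (Set.notMem_empty x)⟩
          obtain ⟨t, -, s, hs⟩ := hx
          have h1 := ((hDIS X.B k).2 j _ hs).1
          have h2 : X.alD k (pcc j).1 (pcc j).2.1 (pcc j).2.2 := h1.2.2.2.1
          rw [hc] at h2
          exact absurd ((hn1 _ _ hRS (le_trans (le_max_right _ _) hlen) _ _).1 h2) hal
        rw [he, Set.inter_empty, Set.empty_sdiff]
        exact Set.finite_empty
    · exact (hNRT X hX k j hRS).subset fun x hx => ⟨hx.1.2, hx.2⟩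
  · have he : w.1 ∩ X.bk k j = ∅ := by
      ext x
      refine ⟨fun hx => ?_, fun hx => absurd hx (Set.notMem_empty x)⟩
      obtain ⟨j', hj', hc'⟩ := hwc x hx.1
      have := (KDD_uniq hDIS X hX k j k j' x hx.2 hj').2
      rw [this] at hc
      exact absurd hc' hc
    rw [he, Set.empty_sdiff]
    exact Set.finite_empty

end

end S5
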