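import Pool.Agent.helper96.S5.SpecV

/-!
# MP_0b485e_lc, row KSB: the converse in one block
-/

set_option autoImplicit false

namespace S5

open PF

noncomputable section

open Classical

theorem KSB_row (hYFN : YFN_stmt) (hYBK : YBK_stmt) : KSB_stmt := by
  intro X p hX hp w k hwk ⟨j0, hj0⟩
  have hF : {j | j < j0 ∧ j ∉ X.N}.Finite := (Set.finite_lt_nat j0).subset fun j hj => hj.1
  obtain ⟨hre, hYy⟩ := hYBK X p hX hp k {j | j < j0 ∧ j ∉ X.N} hF fun j hj => hj.2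
  refine (ks_iff hp w).2 ⟨_, hYy, fun Y' hY' hfin => ?_⟩
  obtain ⟨j1, hj1⟩ := hYFN X p hX hp Y' hY'
  have h2 : (⋃ j ∈ {j | j < j1 ∧ j0 ≤ j}, (w.1 ∩ X.bk k j) \ X.sD).Finite :=
    Set.Finite.biUnion ((Set.finite_lt_nat j1).subset fun j hj => hj.1) fun j hj => hj0 j hj.2
  refine (hfin.union h2).subset ?_
  rintro x ⟨⟨hx1, hx2⟩, hx3⟩
  obtain ⟨j, hj⟩ := hwk x hx2
  have hjN : j ∉ X.N := by
    intro hjN
    obtain ⟨t, hx, ht⟩ := hj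
    exact hx3 ⟨k, j, t, hx, Or.inl ⟨ht, hjN⟩⟩
  have hjj : j < j1 := by
    by_contra hlt
    exact hj1 j (not_lt.1 hlt) hjN k x hj hx1
  by_cases hjl : j < j0
  · exact Or.inl ⟨⟨hx1, j, ⟨hjl, hjN⟩, hj⟩, hx3⟩
  · refine Or.inr (Set.mem_biUnion (x := j) ⟨hjj, not_lt.1 hjl⟩ ⟨⟨hx2, hj⟩, hx3⟩)

end

end S5
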