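import Pool.Agent.helper96.S5.SpecV

/-!
# MP_0b485e_lc, row KSP: small sets are small in almost every piece
-/

set_option autoImplicit false

namespace S5

open PF

noncomputable section

open Classical

theorem KSP_row (hYFN : YFN_stmt) (hYBK : YBK_stmt) : KSP_stmt := by
  intro X p hX hp w hw k
  obtain ⟨Y, hY, h⟩ := (ks_iff hp w).1 hw
  obtain ⟨j0, hj0⟩ := hYFN X p hX hp Y hY
  refine ⟨j0, fun j hj => ?_⟩
  by_cases hjN : j ∈ X.N
  · refine Set.finite_empty.subset ?_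
    rintro x ⟨⟨-, t, hx, ht⟩, hx2⟩
    exact absurd ⟨k, j, t, hx, Or.inl ⟨ht, hjN⟩⟩ hx2
  · obtain ⟨hre, hYy⟩ := hYBK X p hX hp k {j} (Set.finite_singleton j) (by
      intro i hi
      rw [Set.mem_singleton_iff] at hi
      rw [hi]
      exact hjN)
    have h1 := h _ hYy (Set.finite_empty.subset (by
      rintro x ⟨⟨⟨i, hi, hx⟩, hx2⟩, -⟩
      rw [Set.mem_singleton_iff] at hi
      rw [hi] at hx
      exact absurd hx2 (hj0 j hj hjN k x hx)))
    refine h1.subset ?_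
    rintro x ⟨⟨hx1, hx2⟩, hx3⟩
    exact ⟨⟨⟨j, Set.mem_singleton j, hx2⟩, hx1⟩, hx3⟩

end

end S5
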