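import Pool.Agent.helper96.S5.SpecV

/-!
# MP_0b485e_lc, row LVL
-/

set_option autoImplicit false

namespace S5

open PF

noncomputable section

open Classical

theorem LVL_row (hKSP : KSP_stmt) (hRSX : RSX_stmt) (hCAL : CAL_stmt) (hPCF : PCF_stmt) (hGDD : GDD_stmt) :
    LVL_stmt := by
  intro X p hX hp k l c hl hal w ⟨n0, hw⟩ hks
  obtain ⟨j0, hj0⟩ := hKSP X p hX hp w hks k
  obtain ⟨n1, hn1⟩ := hCAL X hX k
  choose g hg hRS using hRSX X.B k (hGDD X hX k) l hl
  have hinj : Function.Injective fun n => Encodable.encode ((g n, l, c) : List ℕ × ℕ × ℕ) := by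
    intro a b hab
    have h1 : ((g a, l, c) : List ℕ × ℕ × ℕ) = (g b, l, c) := Encodable.encode_injective hab
    have h2 : g a = g b := congrArg Prod.fst h1
    rw [← hg a, ← hg b, h2]
  have ht := hinj.nat_tendsto_atTop
  obtain ⟨n, hn, hnm⟩ := ((Filter.tendsto_atTop.1 ht j0).and (Filter.eventually_ge_atTop (max n0 n1))).exists
  obtain ⟨j, hjs, hjN⟩ := hX.nb (Encodable.encode ((g n, l, c) : List ℕ × ℕ × ℕ))
  have hpc := pcc_surj (g n, l, c) j hjs
  have hjj : j0 ≤ j := by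
    refine le_trans ?_ (Nat.sqrt_le_self j)
    rw [hjs]
    exact hn
  have h1 : X.B.RS k (pcc j).1 (pcc j).2.1 := by
    rw [hpc]
    exact hRS n
  have h2 : X.alD k (pcc j).1 (pcc j).2.1 (pcc j).2.2 := by
    rw [hpc]
    refine (hn1 (g n) l (hRS n) ?_ l c).2 hal
    rw [hg n]
    exact le_trans (le_max_right _ _) hnm
  have h3 := hPCF X hX k j h1 h2 hjN
  have h4 : (X.bk k j \ (w.1 ∪ X.sD)).Finite := by
    refine hw j ?_ ?_ ?_
    · rw [hpc]
      show n0 ≤ (g n).length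
      rw [hg n]
      exact le_trans (le_max_left _ _) hnm
    · rw [hpc]
    · rw [hpc]
      exact hRS n
  refine h3 ((h4.union (hj0 j hjj)).subset ?_)
  rintro x ⟨hx1, hx2⟩
  by_cases hxw : x ∈ w.1
  · exact Or.inr ⟨⟨hxw, hx1⟩, hx2⟩
  · exact Or.inl ⟨hx1, fun h => h.elim hxw hx2⟩

end

end S5
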