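import Pool.Agent.helper96.S5.SpecV

/-!
# MP_0b485e_lc, row NRT: pieces with a wrong string
-/

set_option autoImplicit false

namespace S5

open PF

noncomputable section

open Classical

theorem NRT_row (hDMW : DMW_stmt) (hGDD : GDD_stmt) : NRT_stmt := by
  intro X hX k j hRS
  rcases (hDMW X.B k (hGDD X hX k) j).2 hRS with ⟨u0, hu0⟩ | h
  · refine ((Set.finite_lt_nat u0).image fun u => Nat.pair k (X.f u.unpair.2)).subset ?_
    rintro x ⟨⟨t, hx, s, hs⟩, -⟩
    refine ⟨Nat.pair s t, ?_, ?_⟩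
    · by_contra hlt
      exact hu0 _ (not_lt.1 hlt) hs
    · show Nat.pair k (X.f (Nat.pair s t).unpair.2) = x
      rw [Nat.unpair_pair, hx]
  · refine Set.finite_empty.subset ?_
    rintro x ⟨⟨t, hx, s, hs⟩, hx2⟩
    exact absurd ⟨k, j, t, hx, Or.inr ⟨s, hs, h (Nat.pair s t)⟩⟩ hx2

end

end S5
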