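import Pool.Agent.helper96.S5.SpecL

/-!
# MP_0b485e_lc, row PAO: conjunction and disjunction
-/

set_option autoImplicit false

namespace S5

open PF

noncomputable section

/-- shift of a renaming under a quantifier -/
def PAO_up (τ : ℕ → ℕ) : ℕ → ℕ
  | 0 => 0
  | i + 1 => τ i + 1

theorem PAO_cns1 {L : Type} (x : L) (e : ℕ → L) (τ : ℕ → ℕ) :
    cns x (fun i => e (τ i)) = fun i => cns x e (PAO_up τ i) := by
  funext i
  cases i <;> rfl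

theorem PAO_cns2 {L : Type} (x : L) (e : ℕ → L) (τ : ℕ → ℕ) :
    (fun i => e (τ i)) = fun i => cns x e (τ i + 1) := rfl

/-- joint quantifiers -/
def PAO_J (L : Type) (q1 q2 : List Bool) (τ1 τ2 : ℕ → ℕ) (q : List Bool) (σ1 σ2 : ℕ → ℕ) : Prop :=
  ∀ (m1 m2 : (ℕ → L) → Prop) (e : ℕ → L),
    ((St L q1 m1 (fun i => e (τ1 i)) ∧ St L q2 m2 (fun i => e (τ2 i))) ↔
      St L q (fun f => m1 (fun i => f (σ1 i)) ∧ m2 (fun i => f (σ2 i))) e) ∧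
    ((St L q1 m1 (fun i => e (τ1 i)) ∨ St L q2 m2 (fun i => e (τ2 i))) ↔
      St L q (fun f => m1 (fun i => f (σ1 i)) ∨ m2 (fun i => f (σ2 i))) e)

theorem PAO_left (L : Type) [Nonempty L] (b : Bool) (q1 q2 : List Bool) (τ1 τ2 : ℕ → ℕ) (q : List Bool)
    (σ1 σ2 : ℕ → ℕ) (h : PAO_J L q1 q2 (PAO_up τ1) (fun i => τ2 i + 1) q σ1 σ2) :
    PAO_J L (b :: q1) q2 τ1 τ2 (b :: q) σ1 σ2 := by
  intro m1 m2 e
  cases b with
  | true =>
    constructor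
    · show ((∀ x, St L q1 m1 (cns x (fun i => e (τ1 i)))) ∧ St L q2 m2 (fun i => e (τ2 i))) ↔
        ∀ x, St L q (fun f => m1 (fun i => f (σ1 i)) ∧ m2 (fun i => f (σ2 i))) (cns x e)
      simp only [← fun x => (h m1 m2 (cns x e)).1, PAO_cns1]
      rw [forall_and]
      exact and_congr Iff.rfl ⟨fun k _ => k, fun k => k (Classical.arbitrary L)⟩
    · show ((∀ x, St L q1 m1 (cns x (fun i => e (τ1 i)))) ∨ St L q2 m2 (fun i => e (τ2 i))) ↔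
        ∀ x, St L q (fun f => m1 (fun i => f (σ1 i)) ∨ m2 (fun i => f (σ2 i))) (cns x e)
      simp only [← fun x => (h m1 m2 (cns x e)).2, PAO_cns1]
      exact (forall_or_right (p := fun x => St L q1 m1 (fun i => cns x e (PAO_up τ1 i)))
        (q := St L q2 m2 (fun i => e (τ2 i)))).symm
  | false =>
    constructor
    · show ((∃ x, St L q1 m1 (cns x (fun i => e (τ1 i)))) ∧ St L q2 m2 (fun i => e (τ2 i))) ↔
        ∃ x, St L q (fun f => m1 (fun i => f (σ1 i)) ∧ m2 (fun i => f (σ2 i))) (cns x e)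
      simp only [← fun x => (h m1 m2 (cns x e)).1, PAO_cns1]
      exact (exists_and_right (p := fun x => St L q1 m1 (fun i => cns x e (PAO_up τ1 i)))
        (b := St L q2 m2 (fun i => e (τ2 i)))).symm
    · show ((∃ x, St L q1 m1 (cns x (fun i => e (τ1 i)))) ∨ St L q2 m2 (fun i => e (τ2 i))) ↔
        ∃ x, St L q (fun f => m1 (fun i => f (σ1 i)) ∨ m2 (fun i => f (σ2 i))) (cns x e)
      simp only [← fun x => (h m1 m2 (cns x e)).2, PAO_cns1]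
      rw [exists_or]
      exact or_congr Iff.rfl ⟨fun k => ⟨Classical.arbitrary L, k⟩, fun ⟨_, k⟩ => k⟩

theorem PAO_swap (L : Type) (q1 q2 : List Bool) (τ1 τ2 : ℕ → ℕ) (q : List Bool) (σ1 σ2 : ℕ → ℕ)
    (h : PAO_J L q1 q2 τ1 τ2 q σ1 σ2) : PAO_J L q2 q1 τ2 τ1 q σ2 σ1 := by
  intro m1 m2 e
  constructor
  · rw [and_comm, (h m2 m1 e).1]
    simp only [and_comm]
  · rw [or_comm, (h m2 m1 e).2]
    simp only [or_comm]

/-- the joint sequence of quantifiers starts with `k` quantifiers of the kind `b` -/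
def PAO_E (L : Type) (n : ℕ) (b : Bool) (k : ℕ) (q1 q2 : List Bool) : Prop :=
  ∀ τ1 τ2 : ℕ → ℕ, ∃ (q : List Bool) (σ1 σ2 : ℕ → ℕ), Pat n (!b) q ∧
    PAO_J L q1 q2 τ1 τ2 (List.replicate k b ++ q) σ1 σ2

theorem PAO_El (L : Type) [Nonempty L] (n : ℕ) (b : Bool) (k : ℕ) (q1 q2 : List Bool)
    (h : PAO_E L n b k q1 q2) : PAO_E L n b (k + 1) (b :: q1) q2 := by
  intro τ1 τ2
  obtain ⟨q, σ1, σ2, hq, hJ⟩ := h (PAO_up τ1) (fun i => τ2 i + 1)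
  exact ⟨q, σ1, σ2, hq, PAO_left L b q1 q2 τ1 τ2 _ σ1 σ2 hJ⟩

theorem PAO_Es (L : Type) (n : ℕ) (b : Bool) (k : ℕ) (q1 q2 : List Bool)
    (h : PAO_E L n b k q1 q2) : PAO_E L n b k q2 q1 := by
  intro τ1 τ2
  obtain ⟨q, σ1, σ2, hq, hJ⟩ := h τ2 τ1
  exact ⟨q, σ2, σ1, hq, PAO_swap L q1 q2 τ2 τ1 _ σ1 σ2 hJ⟩

theorem PAO_Er (L : Type) [Nonempty L] (n : ℕ) (b : Bool) (q1 q2 : List Bool) (k : ℕ)
    (h : PAO_E L n b k q1 q2) : ∀ j : ℕ, PAO_E L n b (k + j) (List.replicate j b ++ q1) q2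
  | 0 => h
  | j + 1 => PAO_El L n b (k + j) _ q2 (PAO_Er L n b q1 q2 k h j)

theorem PAO_main (L : Type) [Nonempty L] : ∀ (n : ℕ) (b : Bool) (q1 q2 : List Bool), Pat n b q1 → Pat n b q2 →
    ∀ τ1 τ2 : ℕ → ℕ, ∃ (q : List Bool) (σ1 σ2 : ℕ → ℕ), Pat n b q ∧ PAO_J L q1 q2 τ1 τ2 q σ1 σ2
  | 0, b, q1, q2, h1, h2, τ1, τ2 => by
    have e1 : q1 = [] := h1
    have e2 : q2 = [] := h2
    subst e1
    subst e2
    exact ⟨[], τ1, τ2, rfl, fun m1 m2 e => ⟨Iff.rfl, Iff.rfl⟩⟩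
  | n + 1, b, q1, q2, h1, h2, τ1, τ2 => by
    obtain ⟨k1, q1', e1, h1'⟩ := h1
    obtain ⟨k2, q2', e2, h2'⟩ := h2
    have hE : PAO_E L n b 0 q1' q2' := by
      intro τ1 τ2
      obtain ⟨q, σ1, σ2, hq, hJ⟩ := PAO_main L n (!b) q1' q2' h1' h2' τ1 τ2
      exact ⟨q, σ1, σ2, hq, hJ⟩
    have hE1 := PAO_Er L n b q1' q2' 0 hE (k1 + 1)
    have hE2 := PAO_Er L n b q2' _ _ (PAO_Es L n b _ _ _ hE1) (k2 + 1)
    obtain ⟨q, σ1, σ2, hq, hJ⟩ := PAO_Es L n b _ _ _ hE2 τ1 τ2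
    subst e1
    subst e2
    exact ⟨_, σ1, σ2, ⟨0 + (k1 + 1) + k2, q, rfl, hq⟩, hJ⟩

/-- renaming of the variables of a term -/
def PAO_tm (σ : ℕ → ℕ) : Tm → Tm
  | .var i => .var (σ i)
  | .bot => .bot
  | .top => .top
  | .sup a b => .sup (PAO_tm σ a) (PAO_tm σ b)
  | .inf a b => .inf (PAO_tm σ a) (PAO_tm σ b)

/-- renaming of the variables of a formula -/
def PAO_fm (σ : ℕ → ℕ) : Fm → Fm
  | .eq a b => .eq (PAO_tm σ a) (PAO_tm σ b)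
  | .neg a => .neg (PAO_fm σ a)
  | .and a b => .and (PAO_fm σ a) (PAO_fm σ b)
  | .or a b => .or (PAO_fm σ a) (PAO_fm σ b)

/-- renaming of the variables of a matrix -/
def PAO_xm (σ : ℕ → ℕ) : XM → XM
  | .fm φ => .fm (PAO_fm σ φ)
  | .rl r i1 i2 i3 i4 => .rl r (σ i1) (σ i2) (σ i3) (σ i4)
  | .neg a => .neg (PAO_xm σ a)
  | .and a b => .and (PAO_xm σ a) (PAO_xm σ b)
  | .or a b => .or (PAO_xm σ a) (PAO_xm σ b)

section

variable {L : Type} [Lattice L] [BoundedOrder L]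

theorem PAO_tm_ev (σ : ℕ → ℕ) (f : ℕ → L) : ∀ t : Tm, (PAO_tm σ t).ev f = t.ev (fun i => f (σ i))
  | .var _ => rfl
  | .bot => rfl
  | .top => rfl
  | .sup a b => by
    show (PAO_tm σ a).ev f ⊔ (PAO_tm σ b).ev f = _
    rw [PAO_tm_ev σ f a, PAO_tm_ev σ f b]
    rfl
  | .inf a b => by
    show (PAO_tm σ a).ev f ⊓ (PAO_tm σ b).ev f = _
    rw [PAO_tm_ev σ f a, PAO_tm_ev σ f b]
    rfl

theorem PAO_fm_ev (σ : ℕ → ℕ) (f : ℕ → L) : ∀ φ : Fm, (PAO_fm σ φ).Holds f ↔ φ.Holds (fun i => f (σ i))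
  | .eq a b => by
    show (PAO_tm σ a).ev f = (PAO_tm σ b).ev f ↔ _
    rw [PAO_tm_ev σ f a, PAO_tm_ev σ f b]
    rfl
  | .neg a => not_congr (PAO_fm_ev σ f a)
  | .and a b => and_congr (PAO_fm_ev σ f a) (PAO_fm_ev σ f b)
  | .or a b => or_congr (PAO_fm_ev σ f a) (PAO_fm_ev σ f b)

theorem PAO_xm_ev (δ : ℕ → L → L → L → L → Prop) (σ : ℕ → ℕ) (f : ℕ → L) :
    ∀ μ : XM, XM.ev δ f (PAO_xm σ μ) ↔ XM.ev δ (fun i => f (σ i)) μ
  | .fm φ => PAO_fm_ev σ f φ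
  | .rl _ _ _ _ _ => Iff.rfl
  | .neg a => not_congr (PAO_xm_ev δ σ f a)
  | .and a b => and_congr (PAO_xm_ev δ σ f a) (PAO_xm_ev δ σ f b)
  | .or a b => or_congr (PAO_xm_ev δ σ f a) (PAO_xm_ev δ σ f b)

omit [Lattice L] [BoundedOrder L] in
theorem PAO_St_congr (m m' : (ℕ → L) → Prop) (h : ∀ f, m f ↔ m' f) (q : List Bool) (e : ℕ → L) :
    St L q m e ↔ St L q m' e := by
  have : m = m' := funext fun f => propext (h f)
  rw [this]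

end

theorem PAO_row : PAO_stmt := by
  intro L _ _ n b P Q ⟨q1, μ1, hq1, h1⟩ ⟨q2, μ2, hq2, h2⟩
  have : Nonempty L := ⟨⊥⟩
  obtain ⟨q, σ1, σ2, hq, hJ⟩ := PAO_main L n b q1 q2 hq1 hq2 id id
  constructor
  · refine ⟨q, .and (PAO_xm σ1 μ1) (PAO_xm σ2 μ2), hq, fun δ e => ?_⟩
    have h := (hJ (fun f => XM.ev δ f μ1) (fun f => XM.ev δ f μ2) e).1
    have h3 : (P δ e ∧ Q δ e) ↔ St L q (fun f => XM.ev δ (fun i => f (σ1 i)) μ1 ∧
        XM.ev δ (fun i => f (σ2 i)) μ2) e := by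
      rw [h1 δ e, h2 δ e]
      exact h
    refine h3.trans (PAO_St_congr _ _ (fun f => ?_) q e)
    exact (and_congr (PAO_xm_ev δ σ1 f μ1) (PAO_xm_ev δ σ2 f μ2)).symm
  · refine ⟨q, .or (PAO_xm σ1 μ1) (PAO_xm σ2 μ2), hq, fun δ e => ?_⟩
    have h := (hJ (fun f => XM.ev δ f μ1) (fun f => XM.ev δ f μ2) e).2
    have h3 : (P δ e ∨ Q δ e) ↔ St L q (fun f => XM.ev δ (fun i => f (σ1 i)) μ1 ∨
        XM.ev δ (fun i => f (σ2 i)) μ2) e := by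
      rw [h1 δ e, h2 δ e]
      exact h
    refine h3.trans (PAO_St_congr _ _ (fun f => ?_) q e)
    exact (or_congr (PAO_xm_ev δ σ1 f μ1) (PAO_xm_ev δ σ2 f μ2)).symm

end

end S5
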