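import Pool.Agent.helper96.S5.SpecV

/-!
# MP_0b485e_lc, row PAX: the parameters exist
-/

set_option autoImplicit false

namespace S5

open PF

noncomputable section

open Classical

theorem PAX_row (hSRE : SRE_stmt) : PAX_stmt := by
  intro X hX
  obtain ⟨hA, hL, hAL, hD, hM, hC, -, -, -⟩ := hSRE X hX
  refine ⟨fun i => match i with
    | 0 => EStar.mk ⟨X.sA ∪ X.sL, hAL⟩
    | 1 => EStar.mk ⟨X.sA, hA⟩
    | 2 => EStar.mk ⟨X.sD, hD⟩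
    | 3 => EStar.mk ⟨X.sL, hL⟩
    | 4 => EStar.mk ⟨X.sM, hM⟩
    | c + 5 => EStar.mk ⟨X.sC c, hC c⟩, ⟨hAL, rfl⟩, ⟨hA, rfl⟩, ⟨hD, rfl⟩, ⟨hL, rfl⟩, ⟨hM, rfl⟩, fun c => ⟨hC c, ?_⟩⟩
  rw [Nat.add_comm 5 c]

end

end S5
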