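import Pool.Agent.helper96.S5.SpecL

/-!
# MP_0b485e_lc, row PLS: finite conjunctions and disjunctions
-/

set_option autoImplicit false

namespace S5

open PF

noncomputable section

theorem PLS_row (hPAO : PAO_stmt) (hPAT : PAT_stmt) : PLS_stmt := by
  intro L _ _ n b α l P h
  induction l with
  | nil =>
    have ht := (hPAT L n b).1 trF
    have hf := (hPAT L n b).1 (.neg trF)
    have e1 : (fun (_ : ℕ → L → L → L → L → Prop) (e : ℕ → L) => Fm.Holds e trF) =
        fun δ e => ∀ a ∈ ([] : List α), P a δ e := by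
      funext δ e
      exact propext ⟨fun _ a ha => absurd ha List.not_mem_nil, fun _ => rfl⟩
    have e2 : (fun (_ : ℕ → L → L → L → L → Prop) (e : ℕ → L) => Fm.Holds e (.neg trF)) =
        fun δ e => ∃ a ∈ ([] : List α), P a δ e := by
      funext δ e
      exact propext ⟨fun k => absurd rfl k, fun ⟨a, ha, _⟩ => absurd ha List.not_mem_nil⟩
    rw [e1] at ht
    rw [e2] at hf
    exact ⟨ht, hf⟩
  | cons a l ih =>
    obtain ⟨i1, i2⟩ := ih (fun x hx => h x (List.mem_cons_of_mem a hx))
    have ha := h a List.mem_cons_self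
    have h1 := (hPAO L n b _ _ ha i1).1
    have h2 := (hPAO L n b _ _ ha i2).2
    have e1 : (fun (δ : ℕ → L → L → L → L → Prop) (e : ℕ → L) => P a δ e ∧ ∀ x ∈ l, P x δ e) =
        fun δ e => ∀ x ∈ a :: l, P x δ e := by
      funext δ e
      exact propext (List.forall_mem_cons (p := fun x => P x δ e)).symm
    have e2 : (fun (δ : ℕ → L → L → L → L → Prop) (e : ℕ → L) => P a δ e ∨ ∃ x ∈ l, P x δ e) =
        fun δ e => ∃ x ∈ a :: l, P x δ e := by
      funext δ e
      exact propext (by simp)
    rw [e1] at h1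
    rw [e2] at h2
    exact ⟨h1, h2⟩

end

end S5
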