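import Pool.Agent.helper96.S5.SpecL

/-!
# MP_0b485e_lc, row PMO: more blocks
-/

set_option autoImplicit false

namespace S5

open PF

noncomputable section

theorem PMO_flip (hPRN : PRN_stmt) (hPQX : PQX_stmt) (L : Type) [Lattice L] [BoundedOrder L] (n : ℕ)
    (b : Bool) (P : Pp L) (h : Rp L n b P) : Rp L (n + 1) (!b) P := by
  have h1 := hPRN L n b P (fun i => i + 1) h
  cases b with
  | false =>
    have h2 := (hPQX L n (fun δ e => P δ (fun i => e (i + 1)))).2.2.2 h1
    have h3 : (fun (δ : ℕ → L → L → L → L → Prop) (e : ℕ → L) => ∀ x : L, P δ (fun i => cns x e (i + 1))) = P := by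
      funext δ e
      exact propext ⟨fun k => k ⊥, fun k _ => k⟩
    have h4 : Rp L (n + 1) true
      (fun (δ : ℕ → L → L → L → L → Prop) (e : ℕ → L) => ∀ x : L, P δ (fun i => cns x e (i + 1))) := h2
    rw [h3] at h4
    exact h4
  | true =>
    have h2 := (hPQX L n (fun δ e => P δ (fun i => e (i + 1)))).2.1 h1
    have h3 : (fun (δ : ℕ → L → L → L → L → Prop) (e : ℕ → L) => ∃ x : L, P δ (fun i => cns x e (i + 1))) = P := by
      funext δ e
      exact propext ⟨fun ⟨_, k⟩ => k, fun k => ⟨⊥, k⟩⟩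
    have h4 : Rp L (n + 1) false
      (fun (δ : ℕ → L → L → L → L → Prop) (e : ℕ → L) => ∃ x : L, P δ (fun i => cns x e (i + 1))) := h2
    rw [h3] at h4
    exact h4

theorem PMO_front (hPQX : PQX_stmt) (L : Type) [Lattice L] [BoundedOrder L] (n : ℕ) (b : Bool)
    (q : List Bool) (μ : XM) (h : Rp L n (!b) (fun δ e => St L q (fun f => XM.ev δ f μ) e)) :
    ∀ k : ℕ, Rp L (n + 1) b (fun δ e => St L (List.replicate (k + 1) b ++ q) (fun f => XM.ev δ f μ) e)
  | 0 => by
    cases b with
    | false => exact (hPQX L n _).2.1 h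
    | true => exact (hPQX L n _).2.2.2 h
  | k + 1 => by
    have ih := PMO_front hPQX L n b q μ h k
    cases b with
    | false => exact (hPQX L n _).1 ih
    | true => exact (hPQX L n _).2.2.1 ih

theorem PMO_same (hPRN : PRN_stmt) (hPQX : PQX_stmt) (L : Type) [Lattice L] [BoundedOrder L] :
    ∀ (n : ℕ) (b : Bool) (P : Pp L), Rp L n b P → Rp L (n + 1) b P
  | 0, b, P, h => by
    obtain ⟨q, μ, hq, hP⟩ := h
    have h' : Rp L 0 (!b) P := ⟨q, μ, hq, hP⟩
    have := PMO_flip hPRN hPQX L 0 (!b) P h'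
    rwa [Bool.not_not] at this
  | n + 1, b, P, h => by
    obtain ⟨q, μ, ⟨k, q', hq, hp⟩, hP⟩ := h
    have h' : Rp L n (!b) (fun δ e => St L q' (fun f => XM.ev δ f μ) e) := ⟨q', μ, hp, fun _ _ => Iff.rfl⟩
    have h2 := PMO_same hPRN hPQX L n (!b) _ h'
    have h3 := PMO_front hPQX L (n + 1) b q' μ h2 k
    have h4 : P = fun δ e => St L (List.replicate (k + 1) b ++ q') (fun f => XM.ev δ f μ) e := by
      funext δ e
      rw [← hq]
      exact propext (hP δ e)
    rw [h4]
    exact h3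

theorem PMO_row (hPRN : PRN_stmt) (hPQX : PQX_stmt) : PMO_stmt := by
  intro L _ _ n b b' P h
  by_cases hb : b' = b
  · subst hb
    exact PMO_same hPRN hPQX L n b' P h
  · have hb' : b' = !b := by
      cases b <;> cases b' <;> simp_all
    subst hb'
    exact PMO_flip hPRN hPQX L n b P h

end

end S5
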