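import Pool.Agent.helper96.S5.SpecL

/-!
# MP_0b485e_lc, row PNG: negation
-/

set_option autoImplicit false

namespace S5

open PF

noncomputable section

theorem PNG_st (L : Type) (m : (ℕ → L) → Prop) : ∀ (q : List Bool) (e : ℕ → L),
    St L (q.map not) (fun f => ¬ m f) e ↔ ¬ St L q m e
  | [], _ => Iff.rfl
  | true :: q, e => by
    show (∃ x, St L (q.map not) (fun f => ¬ m f) (cns x e)) ↔ ¬ ∀ x, St L q m (cns x e)
    simp only [PNG_st L m q, not_forall]
  | false :: q, e => by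
    show (∀ x, St L (q.map not) (fun f => ¬ m f) (cns x e)) ↔ ¬ ∃ x, St L q m (cns x e)
    simp only [PNG_st L m q, not_exists]

theorem PNG_pat : ∀ (n : ℕ) (b : Bool) (q : List Bool), Pat n b q → Pat n (!b) (q.map not)
  | 0, b, q, h => by
    have hq : q = [] := h
    subst hq
    rfl
  | n + 1, b, q, h => by
    obtain ⟨k, q', hq, h'⟩ := h
    subst hq
    exact ⟨k, q'.map not, by simp, PNG_pat n _ _ h'⟩

theorem PNG_row : PNG_stmt := by
  intro L _ _ n b P ⟨q, μ, hq, h⟩
  refine ⟨q.map not, μ.neg, PNG_pat n b q hq, fun δ e => ?_⟩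
  show ¬ P δ e ↔ _
  rw [h δ e, ← PNG_st L (fun f => XM.ev δ f μ) q e]
  rfl

end

end S5
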