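import Pool.Agent.helper96.S5.SpecL

/-!
# MP_0b485e_lc, row RBD: the complexity of the sentence
-/

set_option autoImplicit false

namespace S5

open PF

noncomputable section

theorem RBD_body (hPMO : PMO_stmt) (hPQX : PQX_stmt) (hPNG : PNG_stmt)
    (hPAO : PAO_stmt) (hPAT : PAT_stmt) (hPLS : PLS_stmt) (hREC : REC_stmt) (hRRU : RRU_stmt)
    (L : Type) [Lattice L] [BoundedOrder L] (R : ℕ) (rules : List HR) (s : ℕ) :
    Rp L 4 true (fun δ e => Bd R rules s δ e) := by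
  have h1 : Rp L 4 true (fun (δ : ℕ → L → L → L → L → Prop) (e : ℕ → L) => δ 0 (e 2) (e 1) (e 2) (e 1)) :=
    (hPAT L 4 true).2.1 0 2 1 2 1
  have h2 : Rp L 4 true (fun (_ : ℕ → L → L → L → L → Prop) (e : ℕ → L) => ∀ r ∈ List.range R,
      ∀ x x' y y' : L, Dm e x x' → Dm e y y' →
        EC e (9 + 2 * r) x x' y y' ∨ EC e (10 + 2 * r) x x' y y') := by
    refine (hPLS L 4 true ℕ (List.range R) (fun r _ e => ∀ x x' y y' : L, Dm e x x' → Dm e y y' →
        EC e (9 + 2 * r) x x' y y' ∨ EC e (10 + 2 * r) x x' y y') (fun r _ => ?_)).1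
    refine hPMO L 3 true true _ ?_
    have hm : Rp L 3 true (fun (_ : ℕ → L → L → L → L → Prop) (e : ℕ → L) =>
        (¬ Dm (fun i => e (i + 4)) (e 3) (e 2)) ∨ (¬ Dm (fun i => e (i + 4)) (e 1) (e 0)) ∨
        (EC (fun i => e (i + 4)) (9 + 2 * r) (e 3) (e 2) (e 1) (e 0) ∨
         EC (fun i => e (i + 4)) (10 + 2 * r) (e 3) (e 2) (e 1) (e 0))) :=
      (hPAO L 3 true _ _ (hPNG L 3 false _ ((hPAT L 3 false).2.2.1 (fun i => i + 4) 3 2))
        (hPAO L 3 true _ _ (hPNG L 3 false _ ((hPAT L 3 false).2.2.1 (fun i => i + 4) 1 0))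
          (hPAO L 3 true _ _ (hREC L (fun i => i + 4) (9 + 2 * r) 3 2 1 0)
            (hREC L (fun i => i + 4) (10 + 2 * r) 3 2 1 0)).2).2).2
    have hq := (hPQX L 2 _).2.2.1 ((hPQX L 2 _).2.2.1 ((hPQX L 2 _).2.2.1 ((hPQX L 2 _).2.2.1 hm)))
    have e1 : (fun (_ : ℕ → L → L → L → L → Prop) (e : ℕ → L) => ∀ x x' y y' : L, Dm e x x' → Dm e y y' →
        EC e (9 + 2 * r) x x' y y' ∨ EC e (10 + 2 * r) x x' y y') =
        fun _ e => ∀ x x' y y' : L, (¬ Dm e x x') ∨ (¬ Dm e y y') ∨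
          (EC e (9 + 2 * r) x x' y y' ∨ EC e (10 + 2 * r) x x' y y') := by
      funext δ e
      apply propext
      simp only [imp_iff_not_or]
    rw [e1]
    exact hq
  have h3 : Rp L 4 true (fun (_ : ℕ → L → L → L → L → Prop) (e : ℕ → L) => ∀ h ∈ rules, ∀ v : ℕ → L,
      RuF h v e) :=
    (hPLS L 4 true HR rules (fun h _ e => ∀ v : ℕ → L, RuF h v e) (fun h _ => hRRU L h)).1
  have h4 : Rp L 4 true (fun (_ : ℕ → L → L → L → L → Prop) (e : ℕ → L) =>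
      ∀ x x' : L, Dm e x x' → ∃ y y' : L, Dm e y y' ∧ ¬ EC e (10 + 2 * s) x x' y y') := by
    have hm : Rp L 3 false (fun (_ : ℕ → L → L → L → L → Prop) (e : ℕ → L) =>
        Dm (fun i => e (i + 4)) (e 1) (e 0) ∧
        ¬ EC (fun i => e (i + 4)) (10 + 2 * s) (e 3) (e 2) (e 1) (e 0)) :=
      (hPAO L 3 false _ _ ((hPAT L 3 false).2.2.1 (fun i => i + 4) 1 0)
        (hPNG L 3 true _ (hREC L (fun i => i + 4) (10 + 2 * s) 3 2 1 0))).1
    have hq := (hPQX L 2 _).1 ((hPQX L 2 _).1 hm)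
    have hq2 := (hPAO L 3 false _ _
      (hPNG L 3 true _ ((hPAT L 3 true).2.2.1 (fun i => i + 2) 1 0)) hq).2
    have hq3 := (hPQX L 3 _).2.2.1 ((hPQX L 3 _).2.2.2 hq2)
    have e1 : (fun (_ : ℕ → L → L → L → L → Prop) (e : ℕ → L) =>
        ∀ x x' : L, Dm e x x' → ∃ y y' : L, Dm e y y' ∧ ¬ EC e (10 + 2 * s) x x' y y') =
        fun _ e => ∀ x x' : L, (¬ Dm e x x') ∨ ∃ y y' : L, Dm e y y' ∧ ¬ EC e (10 + 2 * s) x x' y y' := by
      funext δ e
      apply propext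
      simp only [imp_iff_not_or]
    rw [e1]
    exact hq3
  have h5 : Rp L 4 true (fun (δ : ℕ → L → L → L → L → Prop) (e : ℕ → L) => ∀ r ∈ List.range R,
      ∀ x x' y y' : L, δ (r + 1) x x' y y' → ¬ EC e (10 + 2 * r) x x' y y') := by
    refine (hPLS L 4 true ℕ (List.range R) (fun r δ e => ∀ x x' y y' : L, δ (r + 1) x x' y y' →
      ¬ EC e (10 + 2 * r) x x' y y') (fun r _ => ?_)).1
    have hm : Rp L 3 false (fun (δ : ℕ → L → L → L → L → Prop) (e : ℕ → L) =>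
        (¬ δ (r + 1) (e 3) (e 2) (e 1) (e 0)) ∨
        ¬ EC (fun i => e (i + 4)) (10 + 2 * r) (e 3) (e 2) (e 1) (e 0)) :=
      (hPAO L 3 false _ _ (hPNG L 3 true _ ((hPAT L 3 true).2.1 (r + 1) 3 2 1 0))
        (hPNG L 3 true _ (hREC L (fun i => i + 4) (10 + 2 * r) 3 2 1 0))).2
    have hq := (hPQX L 3 _).2.2.1 ((hPQX L 3 _).2.2.1 ((hPQX L 3 _).2.2.1 ((hPQX L 3 _).2.2.2 hm)))
    have e1 : (fun (δ : ℕ → L → L → L → L → Prop) (e : ℕ → L) =>
        ∀ x x' y y' : L, δ (r + 1) x x' y y' → ¬ EC e (10 + 2 * r) x x' y y') =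
        fun δ e => ∀ x x' y y' : L, (¬ δ (r + 1) x x' y y') ∨ ¬ EC e (10 + 2 * r) x x' y y' := by
      funext δ e
      apply propext
      simp only [imp_iff_not_or]
    rw [e1]
    exact hq
  exact (hPAO L 4 true _ _ h1 (hPAO L 4 true _ _ h2 (hPAO L 4 true _ _ h3 (hPAO L 4 true _ _ h4 h5).1).1).1).1

theorem RBD_row (hPRN : PRN_stmt) (hPMO : PMO_stmt) (hPQX : PQX_stmt) (hPNG : PNG_stmt)
    (hPAO : PAO_stmt) (hPAT : PAT_stmt) (hPLS : PLS_stmt) (hAXQ : AXQ_stmt) (hREC : REC_stmt)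
    (hRRU : RRU_stmt) : RBD_stmt := by
  intro L _ _ R rules s
  have h1 := hPRN L 4 true _ (fun i => 2 * i)
    (RBD_body hPMO hPQX hPNG hPAO hPAT hPLS hREC hRRU L R rules s)
  have h2 := (hAXQ L 4 _).2 (hPMO L 4 true false _ h1)
  have e1 : (fun (δ : ℕ → L → L → L → L → Prop) (_ : ℕ → L) => ∃ p : ℕ → L, Bd R rules s δ p) =
      fun δ e => ∃ v : ℕ → L, Bd R rules s δ (fun i => ilv v e (2 * i)) := by
    funext δ e
    apply propext
    have hv : ∀ v : ℕ → L, (fun i => ilv v e (2 * i)) = v := by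
      intro v
      funext i
      unfold ilv
      rw [if_pos (by omega)]
      congr 1
      omega
    simp only [hv]
  rw [e1]
  exact h2

end

end S5
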