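import Pool.Agent.helper96.S5.SpecL

/-!
# MP_0b485e_lc, row RRU: the translation of a rule
-/

set_option autoImplicit false

namespace S5

open PF

noncomputable section

theorem RRU_ilv0 {L : Type} (v e : ℕ → L) (i : ℕ) : ilv v e (2 * i) = v i := by
  unfold ilv
  rw [if_pos (by omega)]
  congr 1
  omega

theorem RRU_ilv1 {L : Type} (v e : ℕ → L) (i : ℕ) : ilv v e (2 * i + 1) = e i := by
  unfold ilv
  rw [if_neg (by omega)]
  congr 1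
  omega

theorem RRU_row (hPMO : PMO_stmt) (hPNG : PNG_stmt) (hPAO : PAO_stmt) (hPAT : PAT_stmt) (hPLS : PLS_stmt)
    (hAXQ : AXQ_stmt) (hREC : REC_stmt) : RRU_stmt := by
  intro L _ _ h
  have hA := hPNG L 3 true _ (hPLS L 3 true ℕ (hvr h)
    (fun i _ e => Dm (fun j => e (2 * j + 1)) (e (2 * (2 * i))) (e (2 * (2 * i + 1))))
    (fun i _ => (hPAT L 3 true).2.2.1 (fun j => 2 * j + 1) (2 * (2 * i)) (2 * (2 * i + 1)))).1
  have hB := (hPLS L 3 false At h.1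
    (fun a _ e => ¬ EC (fun j => e (2 * j + 1)) (9 + 2 * a.1) (e (2 * (2 * a.2.1))) (e (2 * (2 * a.2.1 + 1)))
      (e (2 * (2 * a.2.2))) (e (2 * (2 * a.2.2 + 1))))
    (fun a _ => hPNG L 3 true _ (hREC L (fun j => 2 * j + 1) (9 + 2 * a.1) (2 * (2 * a.2.1))
      (2 * (2 * a.2.1 + 1)) (2 * (2 * a.2.2)) (2 * (2 * a.2.2 + 1))))).2
  have hC := (hPLS L 3 false At h.2.toList
    (fun a _ e => ¬ EC (fun j => e (2 * j + 1)) (10 + 2 * a.1) (e (2 * (2 * a.2.1))) (e (2 * (2 * a.2.1 + 1)))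
      (e (2 * (2 * a.2.2))) (e (2 * (2 * a.2.2 + 1))))
    (fun a _ => hPNG L 3 true _ (hREC L (fun j => 2 * j + 1) (10 + 2 * a.1) (2 * (2 * a.2.1))
      (2 * (2 * a.2.1 + 1)) (2 * (2 * a.2.2)) (2 * (2 * a.2.2 + 1))))).2
  have hD := (hPAO L 3 false _ _ hA (hPAO L 3 false _ _ hB hC).2).2
  have hE := (hAXQ L 3 _).1 (hPMO L 3 false true _ hD)
  have e1 : (fun (_ : ℕ → L → L → L → L → Prop) (e : ℕ → L) => ∀ v : ℕ → L, RuF h v e) =
      fun δ e => ∀ v : ℕ → L, (fun (_ : ℕ → L → L → L → L → Prop) (e : ℕ → L) =>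
        (¬ ∀ i ∈ hvr h, Dm (fun j => e (2 * j + 1)) (e (2 * (2 * i))) (e (2 * (2 * i + 1)))) ∨
        (∃ a ∈ h.1, ¬ EC (fun j => e (2 * j + 1)) (9 + 2 * a.1) (e (2 * (2 * a.2.1)))
          (e (2 * (2 * a.2.1 + 1))) (e (2 * (2 * a.2.2))) (e (2 * (2 * a.2.2 + 1)))) ∨
        ∃ a ∈ h.2.toList, ¬ EC (fun j => e (2 * j + 1)) (10 + 2 * a.1) (e (2 * (2 * a.2.1)))
          (e (2 * (2 * a.2.1 + 1))) (e (2 * (2 * a.2.2))) (e (2 * (2 * a.2.2 + 1)))) δ (ilv v e) := by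
    funext δ e
    apply propext
    simp only [RRU_ilv0, RRU_ilv1, RuF, imp_iff_not_or]
  rw [e1]
  exact hE

end

end S5
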