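import Pool.Agent.helper96.S5.SpecV

/-!
# MP_0b485e_lc, row SRJ: surjectivity
-/

set_option autoImplicit false

namespace S5

open PF

noncomputable section

open Classical

theorem SRJ_Lg_all {P : ℕ → Prop} (h : ∀ n, P n) : Lg P := ⟨0, fun n _ => h n⟩

theorem SRJ_bet (hVLX : VLX_stmt) (hGDD : GDD_stmt) (X : Cx) (hX : X.Ok) (i0 l : ℕ) (hl : l < X.m)
    (h1 : ∀ k, X.B.lv k l i0 1) : ¬ X.bet i0 l 2 := by
  rintro ⟨s0, hs0⟩
  have h2 := hs0 s0 le_rfl
  have h3 := (hVLX X.B (X.ls s0) (hGDD X hX _) l hl i0).2.1 1 2 (h1 _) h2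
  omega

theorem SRJ_row (hSRE : SRE_stmt) (hLBV : LBV_stmt) (hVLX : VLX_stmt) (hGDD : GDD_stmt) : SRJ_stmt := by
  intro X p hX hp i hi
  obtain ⟨hA, -, -, -, -, -, hB, hB', -⟩ := hSRE X hX
  by_cases him : i + 1 < X.m
  · refine ⟨⟨X.sB i, hB i⟩, ⟨X.sB' i, hB' i⟩, (dm_iff hp _ _).2 ⟨?_, ?_⟩, fun i0 hr => ?_⟩
    · have he : X.sB i ∩ X.sB' i = ∅ := by
        ext x
        refine ⟨fun hx => ?_, fun hx => absurd hx (Set.notMem_empty x)⟩
        obtain ⟨⟨k, t, hx1, hx2⟩, k', t', hx1', hx2'⟩ := hx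
        obtain ⟨hk, hf⟩ := Nat.pair_eq_pair.1 (hx1.symm.trans hx1')
        have ht := hX.fi hf
        subst hk
        subst ht
        exact absurd hx2 hx2'
      show ((X.sB i ∩ X.sB' i) \ X.sD).Finite
      rw [he, Set.empty_sdiff]
      exact Set.finite_empty
    · have he : X.sA \ (X.sB i ∪ X.sB' i) = ∅ := by
        ext x
        refine ⟨fun hx => ?_, fun hx => absurd hx (Set.notMem_empty x)⟩
        obtain ⟨⟨t, ht⟩, hx2⟩ := hx
        have hxe : x = Nat.pair x.unpair.1 (X.f t) := by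
          rw [ht, Nat.pair_unpair]
        by_cases hlab : (X.B.th x.unpair.1 t).2 = i
        · exact absurd (Or.inl ⟨_, t, hxe, hlab⟩) hx2
        · exact absurd (Or.inr ⟨_, t, hxe, hlab⟩) hx2
      show (X.sA \ (X.sB i ∪ X.sB' i)).Finite
      rw [he]
      exact Set.finite_empty
    · have h2 : ∀ k, X.B.lv k i i0 2 := by
        intro k
        refine ⟨i0 + 1, fun g hg hlen => (hLBV X hX _ _ i0 hr k g i hg (by omega)).1 ?_⟩
        rintro t ht ⟨k', t', hx1, hx2⟩
        obtain ⟨hk, hf⟩ := Nat.pair_eq_pair.1 hx1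
        have htt := hX.fi hf
        subst hk
        subst htt
        exact hx2 ht
      have h1 : ∀ l, l ≠ i → ∀ k, X.B.lv k l i0 1 := by
        intro l hl k
        refine ⟨i0 + 1, fun g hg hlen => (hLBV X hX _ _ i0 hr k g l hg (by omega)).2 ?_⟩
        rintro t ht ⟨k', t', hx1, hx2⟩
        obtain ⟨hk, hf⟩ := Nat.pair_eq_pair.1 hx1
        have htt := hX.fi hf
        subst hk
        subst htt
        exact hl (ht.symm.trans hx2)
      refine lst_unique (Or.inr (SRJ_Lg_all fun s => h2 _)) fun l hl => ?_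
      by_contra hlt
      rw [not_le] at hlt
      rcases hl with hl | hl
      · omega
      · exact SRJ_bet hVLX hGDD X hX i0 l (by omega) (h1 l (by omega)) hl
  · have him' : i + 1 = X.m := by omega
    have hE : REPred fun x : ℕ => x ∈ (∅ : Set ℕ) := (fin_cp Set.finite_empty).to_re
    refine ⟨⟨∅, hE⟩, ⟨X.sA, hA⟩, (dm_iff hp _ _).2 ⟨?_, ?_⟩, fun i0 hr => ?_⟩
    · show ((∅ ∩ X.sA) \ X.sD).Finite
      rw [Set.empty_inter, Set.empty_sdiff]
      exact Set.finite_empty
    · show (X.sA \ (∅ ∪ X.sA)).Finite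
      rw [Set.empty_union, Set.sdiff_self]
      exact Set.finite_empty
    · have h1 : ∀ l k, X.B.lv k l i0 1 := by
        intro l k
        exact ⟨i0 + 1, fun g hg hlen => (hLBV X hX _ _ i0 hr k g l hg (by omega)).2
          fun t _ => Set.notMem_empty _⟩
      refine lst_unique (Or.inl him') fun l hl => ?_
      by_contra hlt
      rw [not_le] at hlt
      rcases hl with hl | hl
      · omega
      · exact SRJ_bet hVLX hGDD X hX i0 l (by omega) (h1 l) hl

end

end S5
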