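import Pool.Agent.helper96.S5.SpecL

/-!
# MP_0b485e_lc, row STC: the string of the matrix is computable
-/

set_option autoImplicit false

namespace S5

open PF

noncomputable section

theorem STC_snoc {α : Type} (c : ℕ) : ∀ l : List α, l.map (fun _ => c) ++ [c] = c :: l.map (fun _ => c)
  | [] => rfl
  | a :: l => by
    show c :: (l.map (fun _ => c) ++ [c]) = c :: c :: l.map (fun _ => c)
    rw [STC_snoc c l]

theorem STC_an {α : Type} (g : α → Fm) : ∀ l : List α, (anL (l.map g)).str =
    l.flatMap (fun a => (g a).str) ++ (trF.str ++ l.map (fun _ => 6))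
  | [] => by simp [anL]
  | a :: l => by
    show (g a).str ++ (anL (l.map g)).str ++ [6] = _
    rw [STC_an g l, List.flatMap_cons, List.map_cons, ← STC_snoc 6 l]
    simp only [List.append_assoc]

theorem STC_or {α : Type} (g : α → Fm) : ∀ l : List α, (orL (l.map g)).str =
    l.flatMap (fun a => (g a).str) ++ ((Fm.neg trF).str ++ l.map (fun _ => 7))
  | [] => by simp [orL]
  | a :: l => by
    show (g a).str ++ (orL (l.map g)).str ++ [7] = _
    rw [STC_or g l, List.flatMap_cons, List.map_cons, ← STC_snoc 7 l]
    simp only [List.append_assoc]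

/-- appending computable lists -/
theorem STC_app {α : Type} [Primcodable α] {f g : α → List ℕ} (hf : Primrec f) (hg : Primrec g) :
    Primrec fun a => f a ++ g a := Primrec.list_append.comp hf hg

theorem STC_appc {f g : ℕ → List ℕ} (hf : Computable f) (hg : Computable g) :
    Computable fun a => f a ++ g a := Primrec.list_append.to_comp.comp hf hg

/-- the string of a variable -/
theorem STC_var {α : Type} [Primcodable α] {f : α → ℕ} (hf : Primrec f) :
    Primrec fun a => (Tm.var (f a)).str := by
  show Primrec fun a => [8 + f a]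
  exact Primrec.list_cons.comp (Primrec.nat_add.comp (Primrec.const 8) hf) (Primrec.const [])

theorem STC_k {α : Type} [Primcodable α] (l : List ℕ) : Primrec fun _ : α => l := Primrec.const l

theorem STC_sup {α : Type} [Primcodable α] {f g : α → Tm} (hf : Primrec fun a => (f a).str)
    (hg : Primrec fun a => (g a).str) : Primrec fun a => (Tm.sup (f a) (g a)).str :=
  STC_app (STC_app hf hg) (STC_k [2])

theorem STC_inf {α : Type} [Primcodable α] {f g : α → Tm} (hf : Primrec fun a => (f a).str)
    (hg : Primrec fun a => (g a).str) : Primrec fun a => (Tm.inf (f a) (g a)).str :=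
  STC_app (STC_app hf hg) (STC_k [3])

theorem STC_eq {α : Type} [Primcodable α] {f g : α → Tm} (hf : Primrec fun a => (f a).str)
    (hg : Primrec fun a => (g a).str) : Primrec fun a => (Fm.eq (f a) (g a)).str :=
  STC_app (STC_app hf hg) (STC_k [4])

theorem STC_le {α : Type} [Primcodable α] {f g : α → Tm} (hf : Primrec fun a => (f a).str)
    (hg : Primrec fun a => (g a).str) : Primrec fun a => (leF (f a) (g a)).str :=
  STC_eq (STC_sup hf hg) hg

theorem STC_and {α : Type} [Primcodable α] {f g : α → Fm} (hf : Primrec fun a => (f a).str)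
    (hg : Primrec fun a => (g a).str) : Primrec fun a => (Fm.and (f a) (g a)).str :=
  STC_app (STC_app hf hg) (STC_k [6])

theorem STC_lin {α : Type} [Primcodable α] (N c : ℕ) {f : α → ℕ} (hf : Primrec f) :
    Primrec fun a => N + (2 * f a + c) :=
  Primrec.nat_add.comp (Primrec.const N)
    (Primrec.nat_add.comp (Primrec.nat_mul.comp (Primrec.const 2) hf) (Primrec.const c))

theorem STC_row : STC_stmt := by
  intro N μ gr M hgr hM
  induction μ with
  | fm φ => exact Computable.const (α := ℕ) (fsb N φ).str
  | neg a ih => exact STC_appc ih (Computable.const [5])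
  | and a b iha ihb => exact STC_appc (STC_appc iha ihb) (Computable.const [6])
  | or a b iha ihb => exact STC_appc (STC_appc iha ihb) (Computable.const [7])
  | rl r i1 i2 i3 i4 =>
    cases r with
    | zero =>
      have hv0 : Primrec fun a : ℕ => (Tm.var (N + 2 * a)).str :=
        STC_var (STC_lin N 0 Primrec.id)
      have hv1 : Primrec fun a : ℕ => (Tm.var (N + (2 * a + 1))).str :=
        STC_var (STC_lin N 1 Primrec.id)
      have hF : Primrec fun a : ℕ => (Fm.and (leF (.inf (.var (N + 2 * a)) (.var (N + (2 * a + 1)))) (vb N i1))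
          (leF (vb N i2) (.sup (.var (N + 2 * a)) (.var (N + (2 * a + 1)))))).str :=
        STC_and (STC_le (STC_inf hv0 hv1) (STC_k (vb N i1).str)) (STC_le (STC_k (vb N i2).str) (STC_sup hv0 hv1))
      have hl : Primrec fun m : ℕ => List.range (m + 1) := Primrec.list_range.comp Primrec.succ
      have h1 : Primrec fun m : ℕ => (List.range (m + 1)).flatMap fun a =>
          (Fm.and (leF (.inf (.var (N + 2 * a)) (.var (N + (2 * a + 1)))) (vb N i1))
          (leF (vb N i2) (.sup (.var (N + 2 * a)) (.var (N + (2 * a + 1)))))).str :=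
        Primrec.list_flatMap hl (hF.comp Primrec.snd)
      have h2 : Primrec fun m : ℕ => (List.range (m + 1)).map fun _ => 6 :=
        Primrec.list_map hl (Primrec.const 6)
      have h3 := STC_app h1 (STC_app (STC_k trF.str) h2)
      have h4 := h3.to_comp.comp hM
      refine h4.of_eq fun n => ?_
      exact (STC_an _ _).symm
    | succ r =>
      have hv0 : ∀ {f : At → ℕ}, Primrec f → Primrec fun a : At => (Tm.var (N + 2 * f a)).str :=
        fun hf => STC_var (STC_lin N 0 hf)
      have hv1 : ∀ {f : At → ℕ}, Primrec f → Primrec fun a : At => (Tm.var (N + (2 * f a + 1))).str :=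
        fun hf => STC_var (STC_lin N 1 hf)
      have h21 : Primrec fun a : At => a.2.1 := Primrec.fst.comp Primrec.snd
      have h22 : Primrec fun a : At => a.2.2 := Primrec.snd.comp Primrec.snd
      have hF : Primrec fun a : At => (if a.1 = r then
          Fm.and (.and (.eq (vb N i1) (.var (N + 2 * a.2.1))) (.eq (vb N i2) (.var (N + (2 * a.2.1 + 1)))))
            (.and (.eq (vb N i3) (.var (N + 2 * a.2.2))) (.eq (vb N i4) (.var (N + (2 * a.2.2 + 1)))))
          else .neg trF).str := by
        have h := Primrec.ite (c := fun a : At => a.1 = r)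
          (Primrec.eq.comp Primrec.fst (Primrec.const r))
          (STC_and (STC_and (STC_eq (STC_k (vb N i1).str) (hv0 h21)) (STC_eq (STC_k (vb N i2).str) (hv1 h21)))
            (STC_and (STC_eq (STC_k (vb N i3).str) (hv0 h22)) (STC_eq (STC_k (vb N i4).str) (hv1 h22))))
          (STC_k (Fm.neg trF).str)
        refine h.of_eq fun a => ?_
        by_cases ha : a.1 = r
        · rw [if_pos ha, if_pos ha]
        · rw [if_neg ha, if_neg ha]
      have h1 : Primrec fun l : List At => l.flatMap fun a => (if a.1 = r then
          Fm.and (.and (.eq (vb N i1) (.var (N + 2 * a.2.1))) (.eq (vb N i2) (.var (N + (2 * a.2.1 + 1)))))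
            (.and (.eq (vb N i3) (.var (N + 2 * a.2.2))) (.eq (vb N i4) (.var (N + (2 * a.2.2 + 1)))))
          else .neg trF).str := Primrec.list_flatMap Primrec.id (hF.comp Primrec.snd)
      have h2 : Primrec fun l : List At => l.map fun _ => 7 := Primrec.list_map Primrec.id (Primrec.const 7)
      have h3 := STC_app h1 (STC_app (STC_k (Fm.neg trF).str) h2)
      have h4 := h3.to_comp.comp hgr
      refine h4.of_eq fun n => ?_
      exact (STC_or _ _).symm

end

end S5
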