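import Pool.Agent.helper96.S5.SpecV

/-!
# MP_0b485e_lc, row YBK: finite unions of pieces
-/

set_option autoImplicit false

namespace S5

open PF

noncomputable section

open Classical

/-- every number is in at most one piece -/
theorem YBK_uniq (hDIS : DIS_stmt) (X : Cx) (hX : X.Ok) {k j k' j' x : ℕ} (h : x ∈ X.bk k j)
    (h' : x ∈ X.bk k' j') : j = j' := by
  obtain ⟨t, hx, s, hs⟩ := h
  obtain ⟨t', hx', s', hs'⟩ := h'
  have h1 : Nat.pair k (X.f t) = Nat.pair k' (X.f t') := hx.symm.trans hx'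
  obtain ⟨hk, hf⟩ := Nat.pair_eq_pair.1 h1
  have ht := hX.fi hf
  subst hk
  subst ht
  exact ((hDIS X.B k).1 j j' t s s' hs hs').2

theorem YBK_row (hSRE : SRE_stmt) (hDIS : DIS_stmt) : YBK_stmt := by
  intro X p hX hp k F hF hFN
  obtain ⟨-, -, -, -, -, -, -, -, hbk⟩ := hSRE X hX
  have h : REPred (fun x => x ∈ {x : ℕ | ∃ j ∈ F, x ∈ X.bk k j}) := by
    refine re_ex (p := fun (x : ℕ) (j : ℕ) => j ∈ F ∧ x ∈ X.bk k j) ?_
    refine re_and (re_comp Computable.snd (fin_cp hF).to_re) ?_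
    exact re_comp (f := fun x : ℕ × ℕ => ((k, x.2), x.1))
      (((Computable.const k).pair Computable.snd).pair Computable.fst) hbk
  refine ⟨h, (yy_iff hp _).2 ⟨⟨_, h⟩, ?_, ?_, ?_⟩⟩
  · have he : {x : ℕ | ∃ j ∈ F, x ∈ X.bk k j} ∩ X.sM = ∅ := by
      ext x
      refine ⟨fun hx => ?_, fun hx => absurd hx (Set.notMem_empty x)⟩
      obtain ⟨⟨j, hj, hx1⟩, k', j', hx2, hN⟩ := hx
      have := YBK_uniq hDIS X hX hx1 hx2
      rw [this] at hj
      exact absurd hN (hFN _ hj)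
    show ({x : ℕ | ∃ j ∈ F, x ∈ X.bk k j} ∩ X.sM).Finite
    rw [he]
    exact Set.finite_empty
  · refine Set.finite_empty.subset fun x hx => absurd (Or.inl hx.1) hx.2
  · refine Set.finite_empty.subset fun x hx => absurd hx.1 hx.2

end

end S5
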