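import Pool.Agent.helper96.S5.SpecV

/-!
# MP_0b485e_lc, row YFN: sets in the class `Yy` meet only finitely many pieces outside the simple set
-/

set_option autoImplicit false

namespace S5

open PF

noncomputable section

open Classical

/-- every number is in at most one piece -/
theorem YFN_uniq (hDIS : DIS_stmt) (X : Cx) (hX : X.Ok) {k j k' j' x : ℕ} (h : x ∈ X.bk k j)
    (h' : x ∈ X.bk k' j') : j = j' := by
  obtain ⟨t, hx, s, hs⟩ := h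
  obtain ⟨t', hx', s', hs'⟩ := h'
  have h1 : Nat.pair k (X.f t) = Nat.pair k' (X.f t') := hx.symm.trans hx'
  obtain ⟨hk, hf⟩ := Nat.pair_eq_pair.1 h1
  have ht := hX.fi hf
  subst hk
  subst ht
  exact ((hDIS X.B k).1 j j' t s s' hs hs').2

/-- a finite set of numbers meets only finitely many pieces -/
theorem YFN_fin (hDIS : DIS_stmt) (X : Cx) (hX : X.Ok) (G : Set ℕ) (hG : G.Finite) :
    {j | ∃ k, ∃ x ∈ X.bk k j, x ∈ G}.Finite := by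
  refine (hG.image fun x => lst fun j => ∃ k, x ∈ X.bk k j).subset ?_
  rintro j ⟨k, x, hx, hxG⟩
  refine ⟨x, hxG, ?_⟩
  refine lst_unique ⟨k, hx⟩ ?_
  rintro j' ⟨k', hx'⟩
  exact (YFN_uniq hDIS X hX hx hx').le

theorem YFN_row (hSRE : SRE_stmt) (hDIS : DIS_stmt) : YFN_stmt := by
  intro X p hX hp Y hY
  obtain ⟨Y1, h1, h2, -⟩ := (yy_iff hp Y).1 hY
  obtain ⟨-, -, -, -, -, -, -, -, hbk⟩ := hSRE X hX
  have hW : REPred fun j : ℕ => j ∈ {j : ℕ | ∃ k, ∃ x, x ∈ X.bk k j ∧ x ∈ Y1.1} := by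
    refine re_ex (p := fun (j : ℕ) (k : ℕ) => ∃ x, x ∈ X.bk k j ∧ x ∈ Y1.1) ?_
    refine re_ex (p := fun (y : ℕ × ℕ) (x : ℕ) => x ∈ X.bk y.2 y.1 ∧ x ∈ Y1.1) ?_
    refine re_and ?_ (re_comp Computable.snd Y1.2)
    exact re_comp (f := fun x : (ℕ × ℕ) × ℕ => ((x.1.2, x.1.1), x.2))
      (((Computable.snd.comp Computable.fst).pair (Computable.fst.comp Computable.fst)).pair
        Computable.snd) hbk
  have hfin : {j : ℕ | (∃ k, ∃ x, x ∈ X.bk k j ∧ x ∈ Y1.1) ∧ j ∈ X.N}.Finite := by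
    refine (YFN_fin hDIS X hX _ h1).subset ?_
    rintro j ⟨⟨k, x, hx, hxY⟩, hj⟩
    exact ⟨k, x, hx, hxY, k, j, hx, hj⟩
  have hWfin : {j : ℕ | ∃ k, ∃ x, x ∈ X.bk k j ∧ x ∈ Y1.1}.Finite := by
    by_contra hinf
    have hinf2 : ({j : ℕ | ∃ k, ∃ x, x ∈ X.bk k j ∧ x ∈ Y1.1} \
        {j : ℕ | (∃ k, ∃ x, x ∈ X.bk k j ∧ x ∈ Y1.1) ∧ j ∈ X.N}).Infinite :=
      Set.Infinite.sdiff hinf hfin
    obtain ⟨z, hz, hzN⟩ := hX.ns _ (re_fin_diff hW hfin) hinf2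
    exact hz.2 ⟨hz.1, hzN⟩
  obtain ⟨B1, hB1⟩ := hWfin.bddAbove
  obtain ⟨B2, hB2⟩ := (YFN_fin hDIS X hX _ h2).bddAbove
  refine ⟨max B1 B2 + 1, fun j hj hjN k x hx hxY => ?_⟩
  have hxM : x ∉ X.sM := by
    rintro ⟨k', j', hx', hj'⟩
    have := YFN_uniq hDIS X hX hx hx'
    rw [this] at hjN
    exact hjN hj'
  by_cases hx1 : x ∈ Y1.1
  · have : j ≤ B1 := hB1 ⟨k, x, hx, hx1⟩
    omega
  · have : j ≤ B2 := hB2 ⟨k, x, hx, hxY, fun h => h.elim hx1 hxM⟩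
    omega

end

end S5
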